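import Mathlib

set_option autoImplicit false

/-! There are countably many number fields inside the complex numbers. -/

namespace Pool.Agent.Zk94.Tr

/-- there are countably many subfields of the complex numbers of finite degree -/
lemma countable_fields : Countable {K : IntermediateField ℚ ℂ // NumberField K} := by
  have h1 : ({K : IntermediateField ℚ ℂ | NumberField K}).Countable := by
    have h2 : ({x : ℂ | IsAlgebraic ℚ x}).Countable := Algebraic.countable ℚ ℂ
    refine (h2.image (fun x => IntermediateField.adjoin ℚ {x})).mono ?_
    intro K hK
    have hK' : NumberField K := hK
    obtain ⟨a, ha⟩ := Field.exists_primitive_element ℚ K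
    refine ⟨(a : ℂ), ?_, ?_⟩
    · have h3 : IsAlgebraic ℚ a := Algebra.IsAlgebraic.isAlgebraic a
      exact h3.algebraMap
    · simp only
      rw [← IntermediateField.lift_adjoin_simple]
      refine (congrArg IntermediateField.lift ?_).trans (IntermediateField.lift_top _ K)
      exact ha
  exact h1.to_subtype

end Pool.Agent.Zk94.Tr
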